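import Pool.Agent.Helper77.PD.FinL
import Pool.Agent.Helper97.PD.Defs2

/-!
# Project PD (MP_e66f84_ag), block E4: 100% of the twists of `y ^ ℓ = f(x)`, all primes `ℓ`
-/

set_option autoImplicit false

namespace Pool.Agent.PDL

open VC IntermediateField NumberField IsDedekindDomain Pool.Agent.SC Pool.Agent.Helper91.Sect
open Filter Topology
open Pool.Agent.L (L0 MM)
open Pool.Agent.LN (Geo Act GoodCurve HasSec)
open Pool.Agent.M (Moves OverPl inL0)
open Pool.Agent.ML (HasMu BPl)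

noncomputable section

section transfer

variable {k E E' : Type} [Field k] [Field E] [Field E'] [Algebra k E] [Algebra k E']

theorem brP_equiv (φ : E ≃ₐ[k] E') (ℓ : ℕ) (f : Polynomial k) (p : Option E) :
    BrP ℓ f p ↔ BrP ℓ f (p.map φ) := by
  cases p with
  | none => exact Iff.rfl
  | some e => exact isBr_equiv φ ℓ f e

theorem dif_equiv (φ : E ≃ₐ[k] E') (p q : Option E) :
    dif (p.map φ) (q.map φ) = φ (dif p q) := by
  cases p <;> cases q <;> simp [dif]

theorem map_equiv (φ : E ≃ₐ[k] E') (a : Option k) :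
    (a.map (algebraMap k E)).map φ = a.map (algebraMap k E') := by
  cases a with
  | none => rfl
  | some e =>
    change some (φ (algebraMap k E e)) = some (algebraMap k E' e)
    rw [φ.commutes]

theorem cross_equiv (φ : E ≃ₐ[k] E') {f : Polynomial k} (h : Cross k E f) : Cross k E' f := by
  intro a b hab ha hb
  rw [← map_equiv φ, ← brP_equiv] at ha hb
  obtain ⟨p, q, h1, h2, h3, h4, h5, h6, h7, h8⟩ := h a b hab ha hb
  have hinj : Function.Injective (Option.map φ) := Option.map_injective φ.injective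
  have hne : ∀ (p : Option E) (a : Option k), p ≠ a.map (algebraMap k E) →
      p.map φ ≠ a.map (algebraMap k E') := by
    intro p a hp he
    rw [← map_equiv φ] at he
    exact hp (hinj he)
  refine ⟨p.map φ, q.map φ, (brP_equiv φ 2 f p).1 h1, (brP_equiv φ 2 f q).1 h2,
    fun he => h3 (hinj he), hne p a h4, hne p b h5, hne q a h6, hne q b h7, ?_⟩
  intro z hz hz2
  have hS : {e : E' | p.map φ = some e ∨ q.map φ = some e} =
      (φ : E →ₐ[k] E') '' {e : E | p = some e ∨ q = some e} := by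
    ext e
    constructor
    · rintro (he | he)
      · obtain ⟨e', he1, he2⟩ := Option.map_eq_some_iff.1 he
        exact ⟨e', Or.inl he1, he2⟩
      · obtain ⟨e', he1, he2⟩ := Option.map_eq_some_iff.1 he
        exact ⟨e', Or.inr he1, he2⟩
    · rintro ⟨e', he | he, rfl⟩
      · exact Or.inl (Option.map_eq_some_iff.2 ⟨e', he, rfl⟩)
      · exact Or.inr (Option.map_eq_some_iff.2 ⟨e', he, rfl⟩)
  rw [hS, ← IntermediateField.adjoin_map] at hz
  obtain ⟨w, hw, hwz⟩ := hz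
  have hwz' : φ w = z := hwz
  rw [← map_equiv φ, ← map_equiv φ, dif_equiv, dif_equiv, dif_equiv, dif_equiv, ← hwz',
    ← map_pow, ← map_mul, ← map_mul, ← map_mul] at hz2
  exact h8 w hw (φ.injective hz2)

end transfer

theorem num_ltA {ℓ n : ℕ} (hℓ : ℓ.Prime) (h3 : 3 ≤ n) (h4 : ℓ = 3 → 4 ≤ n) (h5 : ℓ = 2 → 5 ≤ n) :
    n * ℓ ^ 2 < ℓ ^ n := by
  by_cases h2 : ℓ = 2
  · obtain ⟨j, rfl⟩ : ∃ j, n = j + 5 := ⟨n - 5, by have := h5 h2; omega⟩
    subst h2
    clear h3 h4 h5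
    induction j with
    | zero => norm_num
    | succ j ih =>
      rw [show j + 1 + 5 = (j + 5) + 1 from by ring, pow_succ 2 (j + 5)]
      omega
  · exact num_lt hℓ h2 h3 h4

/-- no rational branch point -/
theorem finA_none (hA : ML.StmtFinA) {k : Type} [Field k] [NumberField k] {ℓ : ℕ}
    {f : Polynomial k} (hℓ : ℓ.Prime) (hmu : HasMu k ℓ)
    (hG : GoodCurve k ℓ (algebraMap (Polynomial k) (FractionRing (Polynomial k)) f))
    (hrt : ¬ ML.RatTot k ℓ (algebraMap (Polynomial k) (FractionRing (Polynomial k)) f)) :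
    Tendsto (fun X : ℕ => (Nat.card (LN.clsP (k := k) ℓ (OthL f ℓ) X) : ℝ) /
      Nat.card (LN.clsP (k := k) ℓ (fun _ => True) X)) atTop (𝓝 0) := by
  obtain ⟨η, C, hη, hC, hbd⟩ := hA k (FractionRing (Polynomial k)) ℓ ℓ _ hℓ.pos hℓ (dvd_refl ℓ)
    hmu hG hrt
  have hfin := LN.twists_finite (k := k) ℓ hℓ.two_le
  have hsub : ∀ X : ℕ, LN.clsP (k := k) ℓ (OthL f ℓ) X ⊆ LN.clsP ℓ (fun c : k =>
      HasSec ℓ (algebraMap (Polynomial k) (FractionRing (Polynomial k)) f) c) X := by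
    rintro X D ⟨c, h6, h7, K, j1, j2, x, y, hx, hy, s, -⟩
    exact ⟨c, h6, h7, hasSec_of hx hy s⟩
  have hsub' : ∀ X : ℕ, LN.clsP ℓ (fun c : k =>
      HasSec ℓ (algebraMap (Polynomial k) (FractionRing (Polynomial k)) f) c) X ⊆
      LN.clsP (k := k) ℓ (fun _ => True) X := by
    rintro X D ⟨c, h6, h7, -⟩
    exact ⟨c, h6, h7, trivial⟩
  have hlim : Tendsto (fun X : ℕ => C / Real.log (X : ℝ) ^ η) atTop (𝓝 0) :=
    Tendsto.div_atTop tendsto_const_nhds ((tendsto_rpow_atTop hη).comp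
      (Real.tendsto_log_atTop.comp tendsto_natCast_atTop_atTop))
  refine tendsto_of_tendsto_of_tendsto_of_le_of_le' tendsto_const_nhds hlim
    (Eventually.of_forall fun X => by positivity) ?_
  filter_upwards [eventually_ge_atTop 3] with X hX
  have hl0 : 0 < Real.log X := Real.log_pos (by exact_mod_cast (by omega : 1 < X))
  have hlη : 0 < Real.log X ^ η := Real.rpow_pos_of_pos hl0 η
  have h6 : (Nat.card (LN.clsP (k := k) ℓ (OthL f ℓ) X) : ℝ) ≤
      C * Nat.card (LN.clsP (k := k) ℓ (fun _ => True) X) / Real.log X ^ η := by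
    refine le_trans ?_ (hbd X hX)
    exact_mod_cast Nat.card_mono ((hfin X).subset (hsub' X)) (hsub X)
  rcases Nat.eq_zero_or_pos (Nat.card (LN.clsP (k := k) ℓ (fun _ => True) X)) with h7 | h7
  · rw [h7, Nat.cast_zero, div_zero]
    positivity
  · have h8 : (0 : ℝ) < Nat.card (LN.clsP (k := k) ℓ (fun _ => True) X) := by exact_mod_cast h7
    rw [div_le_iff₀ h8]
    refine h6.trans (le_of_eq ?_)
    ring

/-- `OthL` is rare, if there is a rational branch point -/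
theorem finA_rare (hOne : StmtOneA) (hTR : StmtTRL) {k : Type} [Field k] [NumberField k] {ℓ : ℕ}
    {f : Polynomial k} (hℓ : ℓ.Prime) (hmu : HasMu k ℓ)
    (hG : GoodCurve k ℓ (algebraMap (Polynomial k) (FractionRing (Polynomial k)) f))
    (h3 : 3 ≤ numBr k (AlgebraicClosure k) ℓ f)
    (h4 : ℓ = 3 → 4 ≤ numBr k (AlgebraicClosure k) ℓ f)
    (h5 : ℓ = 2 → 5 ≤ numBr k (AlgebraicClosure k) ℓ f) (hT : Third k (AlgebraicClosure k) ℓ f)
    (hC : ℓ = 2 → Cross k (AlgebraicClosure k) f)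
    (hR : (∃ α : k, ¬ ℓ ∣ f.rootMultiplicity α) ∨ ¬ ℓ ∣ f.natDegree) :
    PD.Rare ℓ (OthL f ℓ) := by
  obtain ⟨E, U, i1, i2, i3, i4, i5, i6, i7, i8, r, hH, hTr⟩ := hTR k ℓ f hℓ hG
  have := hH.geo.algE
  have := hH.geo.clE
  have : IsAlgClosure k E := ⟨inferInstance, inferInstance⟩
  let φ : AlgebraicClosure k ≃ₐ[k] E := IsAlgClosure.equiv k (AlgebraicClosure k) E
  have hn : numBr k E ℓ f * ℓ ^ 2 < ℓ ^ numBr k E ℓ f := by
    rw [← numBr_equiv φ ℓ f]
    exact num_ltA hℓ h3 h4 h5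
  have hu : ∃ u : FractionRing (Polynomial k), IsRatBr ℓ
      (algebraMap (Polynomial k) (FractionRing (Polynomial k)) Polynomial.X) f u := by
    rcases hR with ⟨α, hα⟩ | hd
    · exact ⟨_, Or.inr ⟨α, hα, rfl⟩⟩
    · exact ⟨_, Or.inl ⟨rfl, hd⟩⟩
  refine rare_mono (hOne k (FractionRing (Polynomial k)) E U ℓ _ f r hℓ hmu hH hu hn
    (third_equiv φ hT) fun h => cross_equiv φ (hC h)) fun c hc hO => ?_
  obtain ⟨K, j1, j2, x, y, hx, hy, s, hs1, hs2⟩ := hO
  obtain ⟨Φ, hΦ, -, hQ⟩ := hTr c hc K x y hx hy s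
  refine ⟨Φ, hΦ, ?_⟩
  rintro ⟨u, hu, Q, hp, hm⟩
  rcases hu with ⟨rfl, hd⟩ | ⟨α, hα, rfl⟩
  · exact hs1 hd ((hQ Q hm).1 hp)
  · exact hs2 α hα ((hQ Q hm).2 α hp)

/-- **BLOCK E4.** -/
theorem finA_of (hOne : StmtOneA) (hTR : StmtTRL) (hGC : StmtGCL) (hRat : PD.StmtRat)
    (hA : ML.StmtFinA) (hRT : PD.StmtRT) : StmtFinA := by
  intro k _ _ ℓ f hℓ hmu h3 h4 h5 hT hC
  have hG := hGC k ℓ f hℓ h3
  by_cases hR : (∃ α : k, ¬ ℓ ∣ f.rootMultiplicity α) ∨ ¬ ℓ ∣ f.natDegree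
  · exact (hRat k ℓ hℓ hmu (OthL f ℓ) (finA_rare hOne hTR hℓ hmu hG h3 h4 h5 hT hC hR)).2
  · refine finA_none hA hℓ hmu hG fun h6 => ?_
    obtain ⟨E, U, i1, i2, i3, i4, i5, i6, i7, i8, r, hH, -⟩ := hTR k ℓ f hℓ hG
    have hf0 : f ≠ 0 := by
      rintro rfl
      unfold numBr IsBr at h3
      simp at h3
    have hx : Polynomial.aeval (algebraMap (Polynomial k) (FractionRing (Polynomial k))
        Polynomial.X) f = algebraMap (Polynomial k) (FractionRing (Polynomial k)) f := by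
      rw [Polynomial.aeval_algebraMap_apply, Polynomial.aeval_X_left_apply]
    rw [← hx] at h6
    exact hR (hRT k (FractionRing (Polynomial k)) ℓ _ f hℓ hH.gen hH.tr hf0 h6)

end

end Pool.Agent.PDL
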