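import Pool.Agent.Helper13.ML.All
import Pool.Agent.Helper13.PD.GCL2
import Pool.Agent.Helper13.PD.TRL
import Pool.Agent.Helper28.PD.RT
import Pool.Agent.Helper29.LN.UP
import Pool.Agent.Helper77.PD.FinA
import Pool.Agent.Helper95.PD.Rat

/-!
# Project PD (MP_e66f84_ag): from `StmtOneA` to `StmtFinA`, all blocks
-/

set_option autoImplicit false

namespace Pool.Agent.PDL

open Filter Topology NumberField IsDedekindDomain
open Pool.Agent.LN (GoodCurve HasSec)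
open Pool.Agent.HG (Pr nm)

/-- no rational branch point: `OthL` is rare -/
theorem rare_none (hA : ML.StmtFinA) {k : Type} [Field k] [NumberField k] {ℓ : ℕ}
    {f : Polynomial k} (hℓ : ℓ.Prime) (hmu : ML.HasMu k ℓ)
    (hG : GoodCurve k ℓ (algebraMap (Polynomial k) (FractionRing (Polynomial k)) f))
    (hrt : ¬ ML.RatTot k ℓ (algebraMap (Polynomial k) (FractionRing (Polynomial k)) f)) :
    PD.Rare ℓ (OthL f ℓ) := by
  obtain ⟨η, C, hη, hC, hbd⟩ := hA k (FractionRing (Polynomial k)) ℓ ℓ _ hℓ.pos hℓ (dvd_refl ℓ)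
    hmu hG hrt
  have hfin := LN.twists_finite (k := k) ℓ hℓ.two_le
  have hsub : ∀ X : ℕ, LN.clsP (k := k) ℓ (OthL f ℓ) X ⊆ LN.clsP ℓ (fun c : k =>
      HasSec ℓ (algebraMap (Polynomial k) (FractionRing (Polynomial k)) f) c) X := by
    rintro X D ⟨c, h6, h7, K, j1, j2, x, y, hx, hy, s, -⟩
    exact ⟨c, h6, h7, hasSec_of hx hy s⟩
  have hsub' : ∀ X : ℕ, LN.clsP ℓ (fun c : k =>
      HasSec ℓ (algebraMap (Polynomial k) (FractionRing (Polynomial k)) f) c) X ⊆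
      LN.clsP (k := k) ℓ (fun _ => True) X := by
    rintro X D ⟨c, h6, h7, -⟩
    exact ⟨c, h6, h7, trivial⟩
  obtain ⟨B, hB⟩ := Pool.Agent.HG.exists_B5 k
  obtain ⟨C₁, hC₁, hup⟩ := LN.cls_upper LN.up k ℓ hℓ.two_le (fun _ => True) ∅ ∅ Set.finite_empty
    0 0 B hB (fun _ _ _ v hv => absurd hv (Set.notMem_empty v)) (fun x _ => by
      rw [zero_mul, sub_zero]
      exact Finset.sum_nonneg fun v _ => by positivity)
  have hlim : Tendsto (fun X : ℕ => Real.log (X : ℝ) ^ η) atTop atTop :=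
    (tendsto_rpow_atTop hη).comp (Real.tendsto_log_atTop.comp tendsto_natCast_atTop_atTop)
  intro ε hε
  filter_upwards [hlim.eventually_ge_atTop (C * C₁ / ε), eventually_ge_atTop 3] with X hX hX3 T hT
    hTc
  have hl0 : 0 < Real.log X := Real.log_pos (by exact_mod_cast (by omega : 1 < X))
  have hlη : 0 < Real.log X ^ η := Real.rpow_pos_of_pos hl0 η
  have h1 : (T.card : ℝ) ≤ Nat.card (LN.clsP (k := k) ℓ (OthL f ℓ) X) := by
    exact_mod_cast LN.card_cls_ge hℓ.pos (OthL f ℓ) X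
      ((hfin X).subset ((hsub X).trans (hsub' X))) T hT hTc
  have h2 : (Nat.card (LN.clsP (k := k) ℓ (OthL f ℓ) X) : ℝ) ≤
      C * Nat.card (LN.clsP (k := k) ℓ (fun _ => True) X) / Real.log X ^ η := by
    refine le_trans ?_ (hbd X hX3)
    exact_mod_cast Nat.card_mono ((hfin X).subset (hsub' X)) (hsub X)
  have h3 := hup X hX3
  rw [sub_zero, mul_one] at h3
  obtain ⟨L, hL⟩ : ∃ L : ℝ, L = Real.log X ^ (((ℓ - 1 : ℕ) : ℝ) - 1) := ⟨_, rfl⟩
  rw [← hL] at h3 ⊢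
  have hL0 : 0 ≤ L := by rw [hL]; exact Real.rpow_nonneg hl0.le _
  have h4 : C * C₁ ≤ ε * Real.log X ^ η := by
    rw [div_le_iff₀ hε] at hX
    linarith
  refine h1.trans (h2.trans ?_)
  rw [div_le_iff₀ hlη]
  calc C * (Nat.card (LN.clsP (k := k) ℓ (fun _ => True) X) : ℝ) ≤ C * (C₁ * X * L) :=
        mul_le_mul_of_nonneg_left h3 hC.le
    _ = (C * C₁) * (X * L) := by ring
    _ ≤ (ε * Real.log X ^ η) * (X * L) :=
        mul_le_mul_of_nonneg_right h4 (mul_nonneg (Nat.cast_nonneg _) hL0)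
    _ = ε * (X * L) * Real.log X ^ η := by ring

/-- **`OthL f ℓ` is rare.** -/
theorem rareA_one (hOne : StmtOneA) (k : Type) [Field k] [NumberField k] (ℓ : ℕ)
    (f : Polynomial k) (hℓ : ℓ.Prime) (hmu : ML.HasMu k ℓ)
    (h3 : 3 ≤ numBr k (AlgebraicClosure k) ℓ f)
    (h4 : ℓ = 3 → 4 ≤ numBr k (AlgebraicClosure k) ℓ f)
    (h5 : ℓ = 2 → 5 ≤ numBr k (AlgebraicClosure k) ℓ f) (hT : Third k (AlgebraicClosure k) ℓ f)
    (hC : ℓ = 2 → Cross k (AlgebraicClosure k) f) : PD.Rare ℓ (OthL f ℓ) := by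
  have hG := gCLn k ℓ f hℓ h3
  by_cases hR : (∃ α : k, ¬ ℓ ∣ f.rootMultiplicity α) ∨ ¬ ℓ ∣ f.natDegree
  · exact finA_rare hOne tRL hℓ hmu hG h3 h4 h5 hT hC hR
  · refine rare_none ML.finA hℓ hmu hG fun h6 => ?_
    obtain ⟨E, U, i1, i2, i3, i4, i5, i6, i7, i8, r, hH, -⟩ := tRL k ℓ f hℓ hG
    have hf0 : f ≠ 0 := by
      rintro rfl
      unfold numBr IsBr at h3
      simp at h3
    have hx : Polynomial.aeval (algebraMap (Polynomial k) (FractionRing (Polynomial k))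
        Polynomial.X) f = algebraMap (Polynomial k) (FractionRing (Polynomial k)) f := by
      rw [Polynomial.aeval_algebraMap_apply, Polynomial.aeval_X_left_apply]
    rw [← hx] at h6
    exact hR (PD.rT k (FractionRing (Polynomial k)) ℓ _ f hℓ hH.gen hH.tr hf0 h6)

theorem finA_one (hOne : StmtOneA) : StmtFinA :=
  fun k _ _ ℓ f hℓ hmu h3 h4 h5 hT hC =>
    (PD.rat k ℓ hℓ hmu (OthL f ℓ) (rareA_one hOne k ℓ f hℓ hmu h3 h4 h5 hT hC)).2

end Pool.Agent.PDL
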