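import Pool.Agent.Helper97.PD.Defs
import Pool.Agent.Helper29.LN.UP
import Pool.Agent.Helper97.LN.CLS

/-!
# Project PD (MP_e66f84_ag), block P9a: almost all classes are ramified at a prime of `Q`
-/

set_option autoImplicit false

namespace Pool.Agent.PD

open Filter Topology NumberField IsDedekindDomain
open Pool.Agent.HG (Pr nm)
open Pool.Agent.LN (IsRam)
open Pool.Agent.ML (HasMu)

open scoped Classical in
/-- **BLOCK P9a.** -/
theorem ct : StmtCT := by
  intro k _ _ ℓ hℓ _ B hB δ C Q Bad hBad hδ hQ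
  -- the primes of `Q` outside `Bad`
  have hQ' : ∀ x : ℕ, 2 ≤ x → δ * Real.log (Real.log x) - (C + hBad.toFinset.card) ≤
      Finset.sum (@Finset.filter _ (· ∈ Q \ Bad) (Classical.decPred _) (B x))
        fun v => (1 : ℝ) / nm v := by
    intro x hx
    have h1 := (abs_le.1 (hQ x hx)).1
    have h2 : (B x).filter (· ∈ Q) ⊆
        (@Finset.filter _ (· ∈ Q \ Bad) (Classical.decPred _) (B x)) ∪ hBad.toFinset := by
      intro v hv
      obtain ⟨g1, g2⟩ := Finset.mem_filter.1 hv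
      by_cases h : v ∈ Bad
      · exact Finset.mem_union_right _ (hBad.mem_toFinset.2 h)
      · exact Finset.mem_union_left _
          ((@Finset.mem_filter _ _ (Classical.decPred _) _ _).2 ⟨g1, g2, h⟩)
    have h3 : ∑ v ∈ (B x).filter (· ∈ Q), (1 : ℝ) / nm v ≤
        ∑ v ∈ (@Finset.filter _ (· ∈ Q \ Bad) (Classical.decPred _) (B x)) ∪ hBad.toFinset,
          (1 : ℝ) / nm v :=
      Finset.sum_le_sum_of_subset_of_nonneg h2 fun v _ _ => by positivity
    have h4 : ∑ v ∈ (@Finset.filter _ (· ∈ Q \ Bad) (Classical.decPred _) (B x)) ∪ hBad.toFinset,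
          (1 : ℝ) / nm v ≤
        ∑ v ∈ (@Finset.filter _ (· ∈ Q \ Bad) (Classical.decPred _) (B x)), (1 : ℝ) / nm v +
        ∑ v ∈ hBad.toFinset, (1 : ℝ) / nm v := by
      rw [← Finset.sum_union_inter]
      have : 0 ≤ ∑ v ∈ (@Finset.filter _ (· ∈ Q \ Bad) (Classical.decPred _) (B x)) ∩
          hBad.toFinset, (1 : ℝ) / nm v :=
        Finset.sum_nonneg fun v _ => by positivity
      linarith
    have h5 : ∑ v ∈ hBad.toFinset, (1 : ℝ) / nm v ≤ hBad.toFinset.card := by
      calc ∑ v ∈ hBad.toFinset, (1 : ℝ) / nm v ≤ ∑ v ∈ hBad.toFinset, (1 : ℝ) := by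
            refine Finset.sum_le_sum fun v _ => ?_
            rcases Nat.eq_zero_or_pos (nm v) with h | h
            · rw [h, Nat.cast_zero, div_zero]
              exact zero_le_one
            · have : (1 : ℝ) ≤ nm v := by exact_mod_cast h
              rw [div_le_one (by linarith)]
              exact this
        _ = _ := by simp
    linarith
  have hw : 1 ≤ ℓ - 1 := by
    have := hℓ.two_le
    omega
  have hw' : (1 : ℝ) ≤ ((ℓ - 1 : ℕ) : ℝ) := by exact_mod_cast hw
  obtain ⟨C', hC', hav⟩ := LN.up k (ℓ - 1) hw (Q \ Bad) δ _ B hB hQ'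
  obtain ⟨F, hF⟩ := LN.cls k ℓ hℓ.two_le
  obtain ⟨w, hwe⟩ : ∃ w : ℝ, w = ((ℓ - 1 : ℕ) : ℝ) := ⟨_, rfl⟩
  rw [← hwe] at hw' hav
  intro ε hε
  rw [← hwe]
  have hlim : Tendsto (fun X : ℕ => Real.log (X : ℝ) ^ (w * δ)) atTop atTop :=
    (tendsto_rpow_atTop (mul_pos (by linarith) hδ)).comp
      (Real.tendsto_log_atTop.comp tendsto_natCast_atTop_atTop)
  filter_upwards [hlim.eventually_ge_atTop (F * C' / ε), eventually_ge_atTop 3] with X hX hX3 T hT
    hTc
  have hl0 : 0 < Real.log X := Real.log_pos (by exact_mod_cast (by omega : 1 < X))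
  have h1 := hF (fun c => ∀ v ∈ Q, v ∉ Bad → ¬ IsRam ℓ v c) X
    (C' * X * Real.log X ^ (w * (1 - δ) - 1)) (by
      intro SS hSS
      rw [← hwe]
      refine hav X hX3 SS fun A hA => ?_
      obtain ⟨g1, c, _, g2, g3⟩ := hSS A hA
      exact ⟨g1, fun v hv hvA => g2 v hv.1 hv.2 ((g3 v).1 hvA)⟩) T hT hTc
  refine h1.trans ?_
  have h2 : Real.log X ^ (w * (1 - δ) - 1) * Real.log X ^ (w * δ) = Real.log X ^ (w - 1) := by
    rw [← Real.rpow_add hl0]
    congr 1
    ring
  have h3 : (F : ℝ) * C' ≤ ε * Real.log X ^ (w * δ) := by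
    rw [div_le_iff₀ hε] at hX
    linarith
  calc (F : ℝ) * (C' * X * Real.log X ^ (w * (1 - δ) - 1)) =
        (F * C') * (X * Real.log X ^ (w * (1 - δ) - 1)) := by ring
    _ ≤ (ε * Real.log X ^ (w * δ)) * (X * Real.log X ^ (w * (1 - δ) - 1)) :=
        mul_le_mul_of_nonneg_right h3
          (mul_nonneg (Nat.cast_nonneg _) (Real.rpow_nonneg hl0.le _))
    _ = ε * (X * (Real.log X ^ (w * (1 - δ) - 1) * Real.log X ^ (w * δ))) := by ring
    _ = ε * (X * Real.log X ^ (w - 1)) := by rw [h2]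

end Pool.Agent.PD
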