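import Pool.Agent.Helper45.PD.Defs2
import Pool.Agent.Helper28.PD.Defs
import Pool.Agent.Helper97.LN.Fin

/-!
# Project PD (MP_e66f84_ag), block StmtFinL: 100% of the twists of `y ^ ℓ = f(x)`

From `StmtOneL` (there is a rational branch point) and `ML.StmtFinA` (there is none).
-/

set_option autoImplicit false

namespace Pool.Agent.PDL

open VC IntermediateField NumberField IsDedekindDomain Pool.Agent.SC Pool.Agent.Helper91.Sect
open Filter Topology
open Pool.Agent.L (L0 MM)
open Pool.Agent.LN (Geo Act GoodCurve HasSec)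
open Pool.Agent.M (Moves OverPl inL0)
open Pool.Agent.ML (HasMu BPl)

noncomputable section

/-! ## The numerical conditions do not depend on the algebraic closure -/

section transfer

variable {k E E' : Type} [Field k] [Field E] [Field E'] [Algebra k E] [Algebra k E']

theorem isBr_equiv (φ : E ≃ₐ[k] E') (ℓ : ℕ) (f : Polynomial k) (θ : E) :
    IsBr ℓ f θ ↔ IsBr ℓ f (φ θ) := by
  unfold IsBr
  have h1 : (f.map (algebraMap k E')).rootMultiplicity (φ θ) =
      (f.map (algebraMap k E)).rootMultiplicity θ := by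
    have h2 : f.map (algebraMap k E') = (f.map (algebraMap k E)).map (φ : E →+* E') := by
      rw [Polynomial.map_map]
      congr 1
      ext a
      exact (φ.commutes a).symm
    rw [h2]
    exact (Polynomial.eq_rootMultiplicity_map (p := f.map (algebraMap k E))
      (f := (φ : E →+* E')) φ.injective θ).symm
  rw [h1]

theorem numBr_equiv (φ : E ≃ₐ[k] E') (ℓ : ℕ) (f : Polynomial k) :
    numBr k E ℓ f = numBr k E' ℓ f := by
  unfold numBr
  congr 1
  exact Nat.card_congr (φ.toEquiv.subtypeEquiv fun θ => isBr_equiv φ ℓ f θ)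

theorem third_equiv (φ : E ≃ₐ[k] E') {ℓ : ℕ} {f : Polynomial k} (h : Third k E ℓ f) :
    Third k E' ℓ f := by
  constructor
  · intro α β hαβ hα hβ
    rcases h.fin α β hαβ hα hβ with h1 | ⟨θ, h1, h2, h3, h4⟩
    · exact Or.inl h1
    · refine Or.inr ⟨φ θ, (isBr_equiv φ ℓ f θ).1 h1, fun h5 => h2 ?_, fun h5 => h3 ?_, ?_⟩
      · exact φ.injective (h5.trans (φ.commutes α).symm)
      · exact φ.injective (h5.trans (φ.commutes β).symm)
      · rw [minpoly.algEquiv_eq]
        exact h4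
  · intro α hα hd
    obtain ⟨θ, h1, h2, h4⟩ := h.inf α hα hd
    refine ⟨φ θ, (isBr_equiv φ ℓ f θ).1 h1, fun h5 => h2 ?_, ?_⟩
    · exact φ.injective (h5.trans (φ.commutes α).symm)
    · rw [minpoly.algEquiv_eq]
      exact h4

end transfer

theorem num_lt {ℓ n : ℕ} (hℓ : ℓ.Prime) (h2 : ℓ ≠ 2) (h3 : 3 ≤ n) (h4 : ℓ = 3 → 4 ≤ n) :
    n * ℓ ^ 2 < ℓ ^ n := by
  have hpos : 0 < ℓ ^ 2 := pow_pos hℓ.pos 2
  have hsplit : ∀ m : ℕ, n = m + 2 → m + 2 < ℓ ^ m → n * ℓ ^ 2 < ℓ ^ n := by
    intro m hm h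
    subst hm
    rw [pow_add]
    exact Nat.mul_lt_mul_of_pos_right h hpos
  by_cases hl : ℓ = 3
  · obtain ⟨j, rfl⟩ : ∃ j, n = j + 4 := ⟨n - 4, by have := h4 hl; omega⟩
    refine hsplit (j + 2) rfl ?_
    rw [hl]
    clear hsplit h3 h4
    induction j with
    | zero => norm_num
    | succ j ih =>
      rw [show j + 1 + 2 = (j + 2) + 1 from by ring, pow_succ]
      omega
  · have hl5 : 4 ≤ ℓ := by
      have := hℓ.two_le
      omega
    obtain ⟨j, rfl⟩ : ∃ j, n = j + 3 := ⟨n - 3, by omega⟩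
    refine hsplit (j + 1) rfl ?_
    refine lt_of_lt_of_le ?_ (Nat.pow_le_pow_left hl5 (j + 1))
    clear hsplit h3 h4
    induction j with
    | zero => norm_num
    | succ j ih =>
      rw [pow_succ]
      omega

theorem rare_mono {k : Type} [Field k] [NumberField k] {ℓ : ℕ} {P Q : k → Prop}
    (h : PD.Rare ℓ P) (hPQ : ∀ c, c ≠ 0 → Q c → P c) : PD.Rare ℓ Q := by
  intro ε hε
  filter_upwards [h ε hε] with X hX T hT hTc
  exact hX T hT fun c hc => ⟨(hTc c hc).1, (hTc c hc).2.1, hPQ c (hTc c hc).1 (hTc c hc).2.2⟩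

/-- sections of `y ^ ℓ = c f(x)` in the sense of project LN -/
theorem hasSec_of {k : Type} [Field k] {ℓ : ℕ} {f : Polynomial k} {c : k} {K : Type} [Field K]
    [Algebra k K] {x y : K} (hx : Transcendental k x)
    (hy : y ^ ℓ = algebraMap k K c * Polynomial.aeval x f) (s : GaloisSection k K) :
    HasSec ℓ (algebraMap (Polynomial k) (FractionRing (Polynomial k)) f) c := by
  have hinj : Function.Injective (Polynomial.aeval x : Polynomial k →ₐ[k] K) :=
    transcendental_iff_injective.1 hx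
  let φ : FractionRing (Polynomial k) →ₐ[k] K := IsFractionRing.liftAlgHom hinj
  have hφ : ∀ p, φ (algebraMap _ _ p) = Polynomial.aeval x p := fun p =>
    IsFractionRing.lift_algebraMap hinj p
  let i1 : Algebra (FractionRing (Polynomial k)) K := φ.toRingHom.toAlgebra
  have i2 : IsScalarTower k (FractionRing (Polynomial k)) K :=
    IsScalarTower.of_algebraMap_eq fun a => (φ.commutes a).symm
  refine ⟨K, inferInstance, inferInstance, i1, i2, y, ?_, ⟨s⟩⟩
  rw [hy]
  congr 1
  exact (hφ f).symm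

/-- **BLOCK StmtFinL.** -/
theorem finL_of (hOne : StmtOneL) (hTR : StmtTRL) (hGC : StmtGCL) (hRat : PD.StmtRat)
    (hA : ML.StmtFinA) (hRT : PD.StmtRT) : StmtFinL := by
  intro k _ _ ℓ f hℓ hℓ2 hmu h3 h4 hT
  have hG := hGC k ℓ f hℓ h3
  obtain ⟨E, U, i1, i2, i3, i4, i5, i6, i7, i8, r, hH, hTr⟩ := hTR k ℓ f hℓ hG
  have hf0 : f ≠ 0 := by
    rintro rfl
    unfold numBr IsBr at h3
    simp at h3
  by_cases hR : (∃ α : k, ¬ ℓ ∣ f.rootMultiplicity α) ∨ ¬ ℓ ∣ f.natDegree
  · -- there is a rational branch point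
    have := hH.geo.algE
    have := hH.geo.clE
    have : IsAlgClosure k E := ⟨inferInstance, inferInstance⟩
    let φ : AlgebraicClosure k ≃ₐ[k] E := IsAlgClosure.equiv k (AlgebraicClosure k) E
    have hn : numBr k E ℓ f * ℓ ^ 2 < ℓ ^ numBr k E ℓ f := by
      rw [← numBr_equiv φ ℓ f]
      exact num_lt hℓ hℓ2 h3 h4
    have hu : ∃ u : FractionRing (Polynomial k), IsRatBr ℓ
        (algebraMap (Polynomial k) (FractionRing (Polynomial k)) Polynomial.X) f u := by
      rcases hR with ⟨α, hα⟩ | hd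
      · exact ⟨_, Or.inr ⟨α, hα, rfl⟩⟩
      · exact ⟨_, Or.inl ⟨rfl, hd⟩⟩
    have h5 := hOne k (FractionRing (Polynomial k)) E U ℓ _ f r hℓ hℓ2 hmu hH hu hn
      (third_equiv φ hT)
    refine (hRat k ℓ hℓ hmu (OthL f ℓ) (rare_mono h5 fun c hc hO => ?_)).2
    obtain ⟨K, j1, j2, x, y, hx, hy, s, hs1, hs2⟩ := hO
    obtain ⟨Φ, hΦ, -, hQ⟩ := hTr c hc K x y hx hy s
    refine ⟨Φ, hΦ, ?_⟩
    rintro ⟨u, hu, Q, hp, hm⟩
    rcases hu with ⟨rfl, hd⟩ | ⟨α, hα, rfl⟩
    · exact hs1 hd ((hQ Q hm).1 hp)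
    · exact hs2 α hα ((hQ Q hm).2 α hp)
  · -- there is no rational branch point
    have hx : Polynomial.aeval (algebraMap (Polynomial k) (FractionRing (Polynomial k))
        Polynomial.X) f = algebraMap (Polynomial k) (FractionRing (Polynomial k)) f := by
      rw [Polynomial.aeval_algebraMap_apply, Polynomial.aeval_X_left_apply]
    have hrt : ¬ ML.RatTot k ℓ (algebraMap (Polynomial k) (FractionRing (Polynomial k)) f) := by
      intro h5
      rw [← hx] at h5
      exact hR (hRT k (FractionRing (Polynomial k)) ℓ _ f hℓ hH.gen hH.tr hf0 h5)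
    obtain ⟨η, C, hη, hC, hbd⟩ := hA k (FractionRing (Polynomial k)) ℓ ℓ _ hℓ.pos hℓ (dvd_refl ℓ)
      hmu hG hrt
    have hfin := LN.twists_finite (k := k) ℓ hℓ.two_le
    have hsub : ∀ X : ℕ, LN.clsP (k := k) ℓ (OthL f ℓ) X ⊆ LN.clsP ℓ (fun c : k =>
        HasSec ℓ (algebraMap (Polynomial k) (FractionRing (Polynomial k)) f) c) X := by
      rintro X D ⟨c, h6, h7, K, j1, j2, x, y, hx, hy, s, -⟩
      exact ⟨c, h6, h7, hasSec_of hx hy s⟩
    have hsub' : ∀ X : ℕ, LN.clsP ℓ (fun c : k =>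
        HasSec ℓ (algebraMap (Polynomial k) (FractionRing (Polynomial k)) f) c) X ⊆
        LN.clsP (k := k) ℓ (fun _ => True) X := by
      rintro X D ⟨c, h6, h7, -⟩
      exact ⟨c, h6, h7, trivial⟩
    have hlim : Tendsto (fun X : ℕ => C / Real.log (X : ℝ) ^ η) atTop (𝓝 0) :=
      Tendsto.div_atTop tendsto_const_nhds ((tendsto_rpow_atTop hη).comp
        (Real.tendsto_log_atTop.comp tendsto_natCast_atTop_atTop))
    refine tendsto_of_tendsto_of_tendsto_of_le_of_le' tendsto_const_nhds hlim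
      (Eventually.of_forall fun X => by positivity) ?_
    filter_upwards [eventually_ge_atTop 3] with X hX
    have hl0 : 0 < Real.log X := Real.log_pos (by exact_mod_cast (by omega : 1 < X))
    have hlη : 0 < Real.log X ^ η := Real.rpow_pos_of_pos hl0 η
    have h6 : (Nat.card (LN.clsP (k := k) ℓ (OthL f ℓ) X) : ℝ) ≤
        C * Nat.card (LN.clsP (k := k) ℓ (fun _ => True) X) / Real.log X ^ η := by
      refine le_trans ?_ (hbd X hX)
      exact_mod_cast Nat.card_mono ((hfin X).subset (hsub' X)) (hsub X)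
    rcases Nat.eq_zero_or_pos (Nat.card (LN.clsP (k := k) ℓ (fun _ => True) X)) with h7 | h7
    · rw [h7, Nat.cast_zero, div_zero]
      positivity
    · have h8 : (0 : ℝ) < Nat.card (LN.clsP (k := k) ℓ (fun _ => True) X) := by exact_mod_cast h7
      rw [div_le_iff₀ h8]
      refine h6.trans (le_of_eq ?_)
      ring

end

end Pool.Agent.PDL
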